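import Pool.Agent.Helper44_Art.Stmt2

set_option autoImplicit false

/-!
# Wave 2: UNIQ and SUPP
-/

namespace Art.H25

open Polynomial

/-- UNIQ -/
theorem uniq (root : RootStmt) : UniqStmt := by
  intro S _ _ M k _ L x y z w i j hxy hzw he
  obtain ⟨r1, r2, r3⟩ := root L x y i hxy
  obtain ⟨s1, s2, s3⟩ := root L z w j hzw
  set β := L.root x y i with hβ
  set β' := L.root z w j with hβ'
  have two := L.two_ne
  have hb : ∀ a, 2 * β a = L.B β β' * β' a := by
    intro a
    have h := r1 β
    rw [he, s1 β, r2] at h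
    have h' := congrFun h a
    simp only [Pi.sub_apply, Pi.smul_apply, smul_eq_mul] at h'
    linear_combination h'
  have hb' : ∀ a, 2 * β' a = L.B β' β * β a := by
    intro a
    have h := s1 β'
    rw [← he, r1 β', s2] at h
    have h' := congrFun h a
    simp only [Pi.sub_apply, Pi.smul_apply, smul_eq_mul] at h'
    linear_combination h'
  intro a
  rw [← r3 a, ← s3 a]
  constructor
  · intro h h0
    have := hb a
    rw [h0, mul_zero] at this
    exact h ((mul_eq_zero.1 this).resolve_left two)
  · intro h h0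
    have := hb' a
    rw [h0, mul_zero] at this
    exact h ((mul_eq_zero.1 this).resolve_left two)

/-- SUPP -/
theorem supp (root : RootStmt) : SuppStmt := by
  intro S _ _ M k _ L hG x y z w i j hxy hzw hK a b ha hb hab
  obtain ⟨r1, r2, r3⟩ := root L x y i hxy
  obtain ⟨s1, s2, s3⟩ := root L z w j hzw
  have gen := hG x y z w i j hxy hzw ⟨a, b, (r3 a).2 ha, (s3 b).2 hb, hab⟩
  set β := L.root x y i with hβ
  set β' := L.root z w j with hβ'
  set c := L.B β β' with hc
  have hc' : L.B β' β = c := L.B_symm _ _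
  set R := ref L.f x y i * ref L.f z w j with hR
  -- the rotation as an endomorphism
  set ρ : Module.End k (S → k) := (R.1 : (S → k) ≃ₗ[k] (S → k)).toLinearMap with hρ
  have ρa : ∀ u, ρ u = (ref L.f x y i).1 ((ref L.f z w j).1 u) := fun u => rfl
  have ρpow : ∀ (n : ℕ) (u : S → k), (ρ ^ n) u = (R ^ n).1 u := by
    intro n
    induction n with
    | zero => intro u; rfl
    | succ n ih =>
      intro u
      rw [pow_succ', pow_succ', Module.End.mul_apply, ih, L.mul_apply]
      rfl
  have ρK : ρ ^ L.K = 1 := by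
    refine LinearMap.ext fun u => ?_
    rw [ρpow, hK]
    rfl
  have e1 : ρ β = (c ^ 2 - 1) • β - c • β' := by
    rw [ρa, s1, map_sub, map_smul, r1, r1, r2, hc']
    ext v
    simp only [Pi.sub_apply, Pi.smul_apply, smul_eq_mul]
    rw [← hc]
    ring
  have e2 : ρ β' = -β' + c • β := by
    rw [ρa, s1, s2, map_sub, map_smul, r1, hc']
    ext v
    simp only [Pi.sub_apply, Pi.smul_apply, smul_eq_mul, Pi.add_apply, Pi.neg_apply]
    ring
  -- two polynomials killing `β`
  set f : k[X] := X ^ 2 - C (c ^ 2 - 2) * X + 1 with hf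
  set g : k[X] := X ^ L.K - 1 with hg
  have hfβ : (aeval ρ f) β = 0 := by
    rw [hf, map_add, map_sub, map_mul, aeval_X_pow, aeval_X, aeval_C, map_one]
    rw [LinearMap.add_apply, LinearMap.sub_apply, sq, Module.End.mul_apply, Module.End.mul_apply,
      e1, map_sub, map_smul, map_smul, e1, e2, Module.algebraMap_end_apply]
    ext v
    simp only [Pi.sub_apply, Pi.smul_apply, smul_eq_mul, Pi.add_apply, Pi.neg_apply,
      Module.End.one_apply, Pi.zero_apply]
    ring
  have hgβ : (aeval ρ g) β = 0 := by
    simp only [hg, map_sub, map_pow, aeval_X, map_one]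
    rw [ρK, sub_self]
    rfl
  have hβ0 : β ≠ 0 := by
    intro h0
    exact (r3 a).2 ha (by rw [h0]; rfl)
  have hz2 : IsPrimitiveRoot (L.z ^ 2) L.K := L.hz.pow (by have := L.Kpos; omega) rfl
  have hcop : IsCoprime g f := by
    rw [hg, X_pow_sub_one_eq_prod L.Kpos hz2]
    refine IsCoprime.prod_left fun q hq => ?_
    have hq' : q ^ L.K = 1 := by
      have := (Polynomial.mem_nthRootsFinset L.Kpos 1).1 hq
      simpa using this
    have hq0 : q ≠ 0 := by
      rintro rfl
      rw [zero_pow (by have := L.Kpos; omega)] at hq'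
      exact zero_ne_one hq'
    rw [(irreducible_X_sub_C q).coprime_iff_not_dvd, dvd_iff_isRoot]
    intro hroot
    refine gen q hq' ?_
    have h2 : q ^ 2 - (c ^ 2 - 2) * q + 1 = 0 := by
      have := hroot
      simpa [hf, IsRoot] using this
    field_simp
    linear_combination -h2
  obtain ⟨u, v, huv⟩ := hcop
  have h1 : (aeval ρ (u * g + v * f)) β = β := by
    rw [huv, map_one]
    rfl
  rw [map_add, map_mul, map_mul, LinearMap.add_apply, Module.End.mul_apply, Module.End.mul_apply,
    hgβ, hfβ, map_zero, map_zero, add_zero] at h1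
  exact hβ0 h1.symm

/-- FIN2 -/
theorem fin2 (gen : GenStmt) (ord : OrdStmt) (uniq : UniqStmt) (supp : SuppStmt) (rot : RotStmt)
    (plane : PlaneStmt) : Fin2Stmt := by
  classical
  intro S _ M
  obtain ⟨k, _, _, L, hG⟩ := gen M
  refine ⟨{ F := L.iso, f := L.f, K := L.K, sq := L.f_sq, inj := ?_, ord := ord L,
            dvd := L.dvd, uniq := uniq L, supp := supp L hG, rot := rot L, plane := plane L }⟩
  intro s t hst
  by_contra hne
  have h := L.f_e_self s
  rw [hst, L.f_e] at h
  have h' := congrFun h s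
  simp only [Lin.e, Pi.add_apply, Pi.smul_apply, Pi.neg_apply, Pi.single_eq_same,
    Pi.single_eq_of_ne hne, smul_eq_mul, mul_zero, add_zero] at h'
  apply L.two_ne
  linear_combination h'

end Art.H25
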